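import Pool.Agent.Lib.MP_09e206_co.T.Defs

/-! # T01: basic lemmas on rooted models, near and far side -/

namespace RootedKC

open Pool.Agent.Lib.MP_4332cb_co

/-- Proof: compose the branch sets: `⋃ v ∈ f i, F v` (`Cn_biUnion`). -/
theorem RM.lift {V' V : Type} {G' : SimpleGraph V'} {X' : Set V'} {G : SimpleGraph V} {X : Set V}
    {m : ℕ} (h : RM G' X' m) (hm : RMn G' X' G X) : RM G X m := sorry

/-- restrict to the first `m'` branch sets -/
theorem RM.mono {V : Type} {G : SimpleGraph V} {X : Set V} {m m' : ℕ} (hm : m' ≤ m)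
    (h : RM G X m) : RM G X m' := sorry

/-- `Cn_iff` -/
theorem RM.hasRootedModel {V : Type} {G : SimpleGraph V} {X : Set V} {m : ℕ} (h : RM G X m) :
    HasRootedModel G X (⊤ : SimpleGraph (Fin m)) := sorry

theorem near_disj {V : Type} (G : SimpleGraph V) (X S : Set V) : Disjoint (near G X S) S := sorry

theorem near_closed {V : Type} {G : SimpleGraph V} {X S : Set V} {v w : V} (hv : v ∈ near G X S)
    (hw : w ∉ S) (h : G.Adj v w) : w ∈ near G X S := sorry

theorem subset_near_union {V : Type} (G : SimpleGraph V) (X S : Set V) :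
    X ⊆ near G X S ∪ S := sorry

theorem subset_far {V : Type} (G : SimpleGraph V) (X S : Set V) : S ⊆ far G X S := sorry

/-- an edge between the near side and the far side ends in `S` -/
theorem adj_far {V : Type} {G : SimpleGraph V} {X S : Set V} {v w : V} (hv : v ∈ near G X S)
    (hw : w ∈ far G X S) (h : G.Adj v w) : w ∈ S := sorry

theorem RI_induce {V : Type} {G : SimpleGraph V} {B D : Set V} {x y : V} (hx : x ∈ B)
    (hy : y ∈ B) (h : RI G (D ∩ B) x y) :
    RI (G.induce B) (Subtype.val ⁻¹' D : Set B) ⟨x, hx⟩ ⟨y, hy⟩ := sorry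

theorem RI_of_induce {V : Type} {G : SimpleGraph V} {B : Set V} {D : Set B} {x y : B}
    (h : RI (G.induce B) D x y) : RI G (Subtype.val '' D) x.1 y.1 := sorry

theorem Cn_of_induce {V : Type} {G : SimpleGraph V} {B : Set V} {D : Set B}
    (h : Cn (G.induce B) D) : Cn G (Subtype.val '' D) := sorry

/-- a connected set which avoids `S` and is separated by `S` from `X` lies on the far side
(`Sp G X D S` applied to a vertex of `near G X S ∩ D`) -/
theorem subset_far_of_Sp {V : Type} {G : SimpleGraph V} {X D S : Set V} (hd : Disjoint S D)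
    (hs : Sp G X D S) : D ⊆ far G X S := sorry

end RootedKC
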