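import Pool.Agent.Lib.MP_09e206_co.T.Basic

/-! # T06: contraction of an edge inside an inner set, the easy part -/

namespace RootedKC

open Pool.Agent.Lib.MP_4332cb_co

open Classical in
/-- the contraction map -/
noncomputable def rho {V : Type} {u v : V} (huv : u ≠ v) (w : V) : {w : V // w ≠ v} :=
  if h : w = v then ⟨u, huv⟩ else ⟨w, h⟩

theorem rho_self {V : Type} {u v : V} (huv : u ≠ v) : rho huv v = ⟨u, huv⟩ := by
  simp [rho]

theorem rho_of_ne {V : Type} {u v : V} (huv : u ≠ v) {w : V} (hw : w ≠ v) :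
    rho huv w = ⟨w, hw⟩ := by
  simp [rho, hw]

/-- paths go to paths -/
theorem RI_rho {V : Type} {G : SimpleGraph V} {u v : V} (huv : u ≠ v) {T : Set V} {x y : V}
    (h : RI G T x y) {T' : Set {w : V // w ≠ v}} (hT : ∀ w ∈ T, rho huv w ∈ T') :
    RI (contr G u v) T' (rho huv x) (rho huv y) := sorry

/-- Proof: `RI_rho`; the sets `D j`, `j ≠ i`, do not contain `u`, `v`. Edges: `a ∈ D i`, `b ∈ D j` adjacent in
`G` with `a = v` gives `u` adjacent to `b` in the contraction. -/
theorem PMod.contr {V : Type} {G : SimpleGraph V} {X : Set V} {t : ℕ} {D : Fin t → Set V}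
    {I : Finset (Fin t)} (h : PMod G X t D I) {i : Fin t} (hi : i ∈ I) {u v : V} (hu : u ∈ D i)
    (hv : v ∈ D i) (huv : G.Adj u v) :
    PMod (Pool.Agent.Lib.MP_4332cb_co.contr G u v) (Subtype.val ⁻¹' X) t
      (fun j => (Subtype.val ⁻¹' D j : Set {w : V // w ≠ v})) I := sorry

/-- Proof: branch sets as in `Mn_contr` -/
theorem RMn_contr {V : Type} {G : SimpleGraph V} {X : Set V} {u v : V} (huv : G.Adj u v) :
    RMn (Pool.Agent.Lib.MP_4332cb_co.contr G u v) (Subtype.val ⁻¹' X) G X := sorry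

end RootedKC
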