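import Pool.Agent.Lib.MP_09e206_co.T.Contr

/-! # T07: contraction of an edge inside an inner set keeps the separation condition -/

namespace RootedKC

open Pool.Agent.Lib.MP_4332cb_co

/-- Proof. `u, v ∉ X` as `D i` is disjoint from `X`. Let `S'` be a set of fewer than `z` vertices of the
contraction, `j ∈ I`, disjoint from the image of `D j`, separating. Case `⟨u, _⟩ ∉ S'`: `T` = image of `S'` in
`V`; a path of `G` avoiding `T` from `X` to `D j` is mapped by `rho` to a path avoiding `S'`
(`RI_rho`; if it ends in `v` then `j = i` and `rho v = u ∈ D i`), so `Sp G X (D j) T`: contradicts `hz`. Case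
`⟨u, _⟩ ∈ S'`: `T` = image of `S'` plus `v`, at most `z` elements, disjoint from `D j` (`u ∉ D j`, so `j ≠ i`, so
`v ∉ D j`), `Sp G X (D j) T` in the same way. If `T.card < z` this contradicts `hz`; otherwise `X ⊆ T` by
`htight`, so `X ⊆ T \ {u, v}`, which has fewer than `z` elements and separates `X` from `D j` trivially:
contradicts `hz` again. -/
theorem NoSep.contr {V : Type} {G : SimpleGraph V} {X : Set V} {z t : ℕ}
    {D : Fin t → Set V} {I : Finset (Fin t)} (h : PMod G X t D I) (hz : NoSep G X z D I)
    (htight : ∀ S : Finset V, S.card = z → ∀ i ∈ I, Disjoint (S : Set V) (D i) →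
      Sp G X (D i) (S : Set V) → X ⊆ (S : Set V))
    {i : Fin t} (hi : i ∈ I) {u v : V} (hu : u ∈ D i) (hv : v ∈ D i) (huv : G.Adj u v) :
    NoSep (Pool.Agent.Lib.MP_4332cb_co.contr G u v) (Subtype.val ⁻¹' X) z
      (fun j => (Subtype.val ⁻¹' D j : Set {w : V // w ≠ v})) I := sorry

end RootedKC
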