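import Pool.Agent.Lib.MP_09e206_co.T.CoreDefs

/-! # T21: robust core, existence -/

namespace RootedKC

open Pool.Agent.Lib.MP_4332cb_co

/-- Proof. If `univ` works (connectivity), take `J = univ`. Otherwise there are `U` with `U.card ≤ r` and
`a, b ∉ U` not joined in `Uᶜ`; let `J` be the set of vertices joined to `a` in `Uᶜ` (`cmp H Uᶜ a`). The neighbours
of a vertex of `J` are in `J ∪ U`, so degrees inside `J` are at least `D - r`; the same holds for the
component of `b`, which is disjoint from `J` and so `J.card ≤ 2 D - (D + 1 - r) = D - 1 + r`. Two vertices of `J`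
have at least `2 (D - r) - (D - 1 + r) = D + 1 - 3 r` common neighbours in `J`, more than `r`, so after
deleting `r` vertices they still have one. -/
theorem exists_core {W : Type} [Fintype W] [DecidableEq W] (H : SimpleGraph W) (D r : ℕ)
    (hr : 8 * r ≤ D) (hD : 1 ≤ D) (hne : Nonempty W) (hW : Fintype.card W ≤ 2 * D)
    (hdeg : ∀ w, D ≤ (nbs H w).card) : ∃ J, Core H D r J := sorry

end RootedKC
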