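import Pool.Agent.Lib.MP_09e206_co.T.Defs

/-! # T21: robust core, definition -/

namespace RootedKC

open Pool.Agent.Lib.MP_4332cb_co

/-- `J` is a nonempty set of vertices in which all degrees are at least `D - r`, and which stays
connected after the deletion of any `r` vertices -/
structure Core {W : Type} [Fintype W] [DecidableEq W] (H : SimpleGraph W) (D r : ℕ)
    (J : Finset W) : Prop where
  ne : J.Nonempty
  card : J.card ≤ 2 * D
  deg : ∀ w ∈ J, D ≤ (nbs H w ∩ J).card + r
  conn : ∀ U : Finset W, U.card ≤ r → ∀ a ∈ J, ∀ b ∈ J, a ∉ U → b ∉ U →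
    RI H ((J : Set W) \ (U : Set W)) a b

end RootedKC
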