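import Pool.Agent.Lib.MP_4332cb_co.Menger
import Pool.Agent.Lib.MP_09e206_co.Defs

/-! # Rooted complete minors from complete minors: definitions

`RI G S x y` : `y` can be reached from `x` inside `S`; `Cn G S` : `S` is nonempty and connected in `G`;
`Mn K G` : `K` is a minor of `G`; `KM G t` : `G` has a `K_t` minor; `Sp G A B S` : `S` separates `A` from
`B`; `Lk G A B k` : there are `k` disjoint connected sets meeting `A` and `B`; `menger` (all in
`Pool.Agent.Lib.MP_4332cb_co`). -/

namespace RootedKC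

open Pool.Agent.Lib.MP_4332cb_co

/-- `G` has an `X`-rooted complete model of order `m` -/
def RM {V : Type} (G : SimpleGraph V) (X : Set V) (m : ℕ) : Prop :=
  ∃ f : Fin m → Set V, (∀ i, Cn G (f i)) ∧ (∀ i j, i ≠ j → Disjoint (f i) (f j)) ∧
    (∀ i j, i ≠ j → ∃ x ∈ f i, ∃ y ∈ f j, G.Adj x y) ∧ ∀ i, (f i ∩ X).Nonempty

/-- `(G', X')` is a rooted minor of `(G, X)` -/
def RMn {V' V : Type} (G' : SimpleGraph V') (X' : Set V') (G : SimpleGraph V) (X : Set V) : Prop :=
  ∃ F : V' → Set V, (∀ v, Cn G (F v)) ∧ (∀ u v, u ≠ v → Disjoint (F u) (F v)) ∧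
    (∀ u v, G'.Adj u v → ∃ x ∈ F u, ∃ y ∈ F v, G.Adj x y) ∧ ∀ v ∈ X', (F v ∩ X).Nonempty

/-- Partial model of order `t`: the sets with index in `I` are connected and disjoint from `X`
(inner), the others (outer) are such that each of their vertices is joined to `X` inside the set;
inner sets are adjacent to all other sets. -/
structure PMod {V : Type} (G : SimpleGraph V) (X : Set V) (t : ℕ) (D : Fin t → Set V)
    (I : Finset (Fin t)) : Prop where
  inner : ∀ i ∈ I, Cn G (D i) ∧ Disjoint (D i) X
  outer : ∀ i, i ∉ I → ∀ x ∈ D i, ∃ y ∈ D i, y ∈ X ∧ RI G (D i) x y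
  disj : ∀ i j, i ≠ j → Disjoint (D i) (D j)
  adj : ∀ i ∈ I, ∀ j, j ≠ i → ∃ a ∈ D i, ∃ b ∈ D j, G.Adj a b

/-- no set of fewer than `z` vertices separates `X` from an inner set disjoint from it -/
def NoSep {V : Type} (G : SimpleGraph V) (X : Set V) (z : ℕ) {t : ℕ} (D : Fin t → Set V)
    (I : Finset (Fin t)) : Prop :=
  ∀ S : Finset V, S.card < z → ∀ i ∈ I, Disjoint (S : Set V) (D i) → ¬ Sp G X (D i) (S : Set V)

/-- the vertices reachable from `X` in `G - S` -/
def near {V : Type} (G : SimpleGraph V) (X S : Set V) : Set V := {v | ∃ x ∈ X, x ∉ S ∧ RI G Sᶜ x v}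

/-- the other vertices (the separator `S` and the far side) -/
def far {V : Type} (G : SimpleGraph V) (X S : Set V) : Set V := (near G X S)ᶜ

/-- the set `D` restricted to `G[far G X S]` -/
def onFar {V : Type} (G : SimpleGraph V) (X S : Set V) (D : Set V) : Set (far G X S) :=
  Subtype.val ⁻¹' D

open Classical in
/-- the indices of the sets disjoint from `S` -/
noncomputable def avoid {V : Type} (S : Set V) {t : ℕ} (D : Fin t → Set V) : Finset (Fin t) :=
  Finset.univ.filter fun j => Disjoint (D j) S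

theorem mem_avoid {V : Type} {S : Set V} {t : ℕ} {D : Fin t → Set V} {j : Fin t} :
    j ∈ avoid S D ↔ Disjoint (D j) S := by
  classical
  simp [avoid]

/-- every proper `k`-colouring of the `k`-colourable graph `G` uses all colours on `X` -/
def Hol {V : Type} (k : ℕ) (G : SimpleGraph V) (X : Set V) : Prop :=
  (∃ φ : V → Fin k, Proper G φ) ∧ ∀ φ : V → Fin k, Proper G φ → ∀ c, ∃ x ∈ X, φ x = c

open Classical in
/-- neighbours as a finset -/
noncomputable def nbs {W : Type} [Fintype W] (H : SimpleGraph W) (w : W) : Finset W :=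
  Finset.univ.filter fun v => H.Adj w v

theorem mem_nbs {W : Type} [Fintype W] {H : SimpleGraph W} {w v : W} :
    v ∈ nbs H w ↔ H.Adj w v := by
  classical
  simp [nbs]

end RootedKC
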