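import Pool.Agent.Lib.MP_09e206_co.T.Defs

/-! # T20: a dense neighbourhood in a minor (Mader) -/

namespace RootedKC

open Pool.Agent.Lib.MP_4332cb_co

/-- `PA G` is the set of ordered adjacent pairs; its cardinality is the sum of the degrees. -/
theorem card_PA {V : Type} [Fintype V] (G : SimpleGraph V) :
    (PA G).card = ∑ v, (nbs G v).card := sorry

/-- deletion of a vertex of degree at most `D` -/
theorem PA_delete {V : Type} [Fintype V] (G : SimpleGraph V) (v : V) [Fintype {w : V // w ≠ v}] :
    (PA G).card ≤ (PA (G.comap (Subtype.val : {w : V // w ≠ v} → V))).card +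
      2 * (nbs G v).card := sorry

/-- Proof by strong induction on `n`. (i) A vertex of degree `≤ D` is deleted (`PA_delete`,
`Mn_of_embedding`; there is a second vertex, since `PA` is not empty). (ii) If the adjacent vertices `x`, `y`
have fewer than `D` common neighbours, contract `xy` (`contr_pairs` with `c = D`, `Mn_contr`). (iii) If
`2 D |V| + 2 ≤ (PA G).card` delete an edge (`Mn_of_le`). (iv) Otherwise some vertex `v` has degree `≤ 2 D`
(`card_PA`; `|V| ≥ 2`); it has a neighbour by (i). `W` = the neighbours of `v`, `H` = the induced graph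
(`Mn_of_embedding`); for `w ∈ W` the at least `D` common neighbours of `v` and `w` are neighbours of `w` in
`H`. -/
theorem dense_minor (D : ℕ) (hD : 1 ≤ D) (n : ℕ) : ∀ (V : Type) [Fintype V] (G : SimpleGraph V),
    Fintype.card V + (PA G).card = n → 0 < Fintype.card V →
    2 * D * Fintype.card V ≤ (PA G).card →
    ∃ (W : Type) (_ : Fintype W) (H : SimpleGraph W), Mn H G ∧ Nonempty W ∧
      Fintype.card W ≤ 2 * D ∧ ∀ w, D ≤ (nbs H w).card := sorry

end RootedKC
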