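import Pool.Agent.Lib.MP_09e206_co.T.CoreDefs

/-! # T23: the counting lemma for the choice of the next set -/

namespace RootedKC

open Pool.Agent.Lib.MP_4332cb_co

open Classical in
/-- the vertices of `J` without a neighbour in `B` -/
noncomputable def undom {W : Type} (H : SimpleGraph W) (J B : Finset W) : Finset W :=
  J.filter fun u => ∀ b ∈ B, ¬ H.Adj u b

/-- Proof. Sequences `β : Fin s → A`, there are `|A| ^ s` of them. For `u ∈ J` at most `(3 |A| / 4) ^ s` of them avoid
the neighbours of `u`; so the sum over `β` of `|undom H J (range β)|` is at most `|J| (3 |A| / 4) ^ s`, hence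
fewer than half of the `β` violate `4 ^ s * |undom| ≤ 2 * 3 ^ s * |J|` (if one violates, the sum is strictly
larger than the number of violators times `2 (3/4) ^ s |J|`). For a given `i` the `β` with no `β j` adjacent to
`B i` have all values in `A ∩ undom H J (B i)`: at most `(2 (3/4) ^ s |J|) ^ s ≤ (4 (3/4) ^ s |A|) ^ s` of them; for
all `i < q` together fewer than `|A| ^ s / 2` by `hq`. So some `β` violates nothing. -/
theorem exists_seq {W : Type} [Fintype W] [DecidableEq W] (H : SimpleGraph W) (J A : Finset W)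
    (s q : ℕ) (hA : A ⊆ J) (hne : A.Nonempty) (hJA : J.card ≤ 2 * A.card)
    (hdeg : ∀ u ∈ J, A.card ≤ 4 * (nbs H u ∩ A).card) (B : Fin q → Finset W)
    (hB : ∀ i, 4 ^ s * (undom H J (B i)).card ≤ 2 * 3 ^ s * J.card)
    (hq : 2 * q * 4 ^ s * 3 ^ (s * s) < 4 ^ (s * s)) :
    ∃ β : Fin s → W, (∀ j, β j ∈ A) ∧
      4 ^ s * (undom H J (Finset.univ.image β)).card ≤ 2 * 3 ^ s * J.card ∧
      ∀ i, ∃ j, ∃ c ∈ B i, H.Adj (β j) c := sorry

end RootedKC
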