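import Pool.Agent.Lib.MP_09e206_co.T.CoreDefs

/-! # T22: short connections in the core -/

namespace RootedKC

open Pool.Agent.Lib.MP_4332cb_co

/-- Proof. Let `P = J \ U`; every vertex of `P` has at least `D - 2 r ≥ 3 D / 4` neighbours in `P`, and
`P.card ≤ 2 D`. Claim: the distance of `a` and `b` in `H[P]` is at most `5` (then take the vertices of a
shortest path). If it is at least `6`, let `p` and `q` be vertices at distance `3` and `6` from `a` on a shortest
path; the closed neighbourhoods (in `P`) of `a`, `p`, `q` are disjoint and have more than `3 D / 4` elements each,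
`9 D / 4 > 2 D`. (One may use `(H.induce P).dist`, `SimpleGraph.Reachable.exists_walk_length_eq_dist`,
`SimpleGraph.Walk.take`, or balls defined by recursion.) -/
theorem short_link {W : Type} [Fintype W] [DecidableEq W] {H : SimpleGraph W} {D r : ℕ}
    (hr : 8 * r ≤ D) (hD : 1 ≤ D) {J : Finset W} (hJ : Core H D r J) {U : Finset W}
    (hU : U.card ≤ r) {a b : W} (ha : a ∈ J) (hb : b ∈ J) (haU : a ∉ U) (hbU : b ∉ U) :
    ∃ S : Finset W, Cn H (S : Set W) ∧ a ∈ S ∧ b ∈ S ∧ S ⊆ J ∧ Disjoint S U ∧ S.card ≤ 6 := sorry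

end RootedKC
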