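import Pool.Agent.Lib.MP_09e206_co.T.Core
import Pool.Agent.Lib.MP_09e206_co.T.Short
import Pool.Agent.Lib.MP_09e206_co.T.Seq

/-! # T24: the greedy construction of a complete minor in the core -/

namespace RootedKC

open Pool.Agent.Lib.MP_4332cb_co

/-- One step: given `q < t` sets `T i ⊆ J` (connected, disjoint, at most `6 s` elements, pairwise adjacent) with
`B i ⊆ T i` badly dominating few vertices, there is one more. Proof: `U = ⋃ T i` has at most `6 s q ≤ r`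
elements, `A = J \ U`; `D + 1 ≤ J.card + r` (`deg`), so `J.card ≤ 2 A.card` and for `u ∈ J`
`4 (nbs H u ∩ A).card ≥ 4 (D - 2 r) ≥ 2 D ≥ A.card`; `exists_seq` gives `β`; `B' = image β`, and `T'` is the union of
the sets of `short_link` joining `β 0` to all `β j` in `J \ U` (`s ≥ 1`). -/
theorem greedy_step {W : Type} [Fintype W] [DecidableEq W] {H : SimpleGraph W} {D r s t q : ℕ}
    (hr : 8 * r ≤ D) (hD : 1 ≤ D) (hs : 1 ≤ s) (hst : 6 * s * t ≤ r)
    (hq : 2 * t * 4 ^ s * 3 ^ (s * s) < 4 ^ (s * s)) {J : Finset W} (hJ : Core H D r J)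
    (hqt : q < t) (T B : Fin q → Finset W) (h1 : ∀ i, T i ⊆ J) (h2 : ∀ i, (T i).card ≤ 6 * s)
    (h3 : ∀ i, B i ⊆ T i)
    (h4 : ∀ i, 4 ^ s * (undom H J (B i)).card ≤ 2 * 3 ^ s * J.card) :
    ∃ T' B' : Finset W, T' ⊆ J ∧ T'.card ≤ 6 * s ∧ B' ⊆ T' ∧ Cn H (T' : Set W) ∧
      4 ^ s * (undom H J B').card ≤ 2 * 3 ^ s * J.card ∧ (∀ i, Disjoint T' (T i)) ∧
      ∀ i, ∃ x ∈ T', ∃ y ∈ T i, H.Adj x y := sorry

/-- Proof: iterate `greedy_step` (`Fin.snoc`, or recursion on `q ≤ t`). -/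
theorem greedy {W : Type} [Fintype W] [DecidableEq W] {H : SimpleGraph W} {D r s t : ℕ}
    (hr : 8 * r ≤ D) (hD : 1 ≤ D) (hs : 1 ≤ s) (hst : 6 * s * t ≤ r)
    (hq : 2 * t * 4 ^ s * 3 ^ (s * s) < 4 ^ (s * s)) {J : Finset W} (hJ : Core H D r J) :
    KM H t := sorry

end RootedKC
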