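import Pool.Agent.Lib.MP_09e206_co.T.Dense
import Pool.Agent.Lib.MP_09e206_co.T.Greedy

/-! # T25: graphs with large chromatic number have large complete minors (Kostochka, Thomason) -/

namespace RootedKC

open Pool.Agent.Lib.MP_4332cb_co

/-- Proof by strong induction on the number of vertices: if every nonempty set of vertices contains a
vertex with fewer than `k` neighbours in it, colour greedily. -/
theorem exists_min_degree {V : Type} [Fintype V] [DecidableEq V] (G : SimpleGraph V) (k : ℕ)
    (h : ¬ G.Colorable k) :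
    ∃ A : Finset V, A.Nonempty ∧ ∀ v ∈ A, k ≤ (nbs G v ∩ A).card := sorry

/-- Proof: `exists_min_degree`, `dense_minor` for the induced graph (`card_PA`), `exists_core`, `greedy` with
`r = D / 8`, `KM.of_Mn`. -/
theorem KT {k D s t : ℕ} (hD : 1 ≤ D) (hk : 2 * D ≤ k) (hs : 1 ≤ s) (hst : 48 * s * t ≤ D)
    (hq : 2 * t * 4 ^ s * 3 ^ (s * s) < 4 ^ (s * s)) (V : Type) [Fintype V]
    (G : SimpleGraph V) (h : ¬ G.Colorable k) : KM G t := sorry

end RootedKC
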