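import Mathlib

/-! # T26: the choice of the parameters -/

namespace RootedKC

/-- Proof. `c = 1 / 12000`. If `c * k / √(log k) ≤ 1` take `m = 1`. Otherwise `k > 12000 √(log k) ≥ 9000`; put
`u = ⌈2 √(log k)⌉`, `s = 10 + u`, `D = (k - 1) / 2`, `m = D / (96 s)`. Then `4 ^ (s²) / (3 ^ (s²) 4 ^ s) =
exp (0.2876 s² - 1.3863 s)` and `0.2876 s² - 1.3863 s ≥ 14.8 + 4.3 u + 0.2876 u² ≥ 14.8 + 1.15 log k`, while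
`4 m ≤ k`. `s ≤ 11 + 2 √(log k) ≤ 6 √(log k)` as `√(log k) ≥ 3`; `D ≥ k / 4`; `D / (96 s) ≥ k / (2304 √(log k)) ≥ 2`,
so the integer part is at least one half of it. (`(4/3)^5 ≥ 4` and `(4/3)^(5/2) ≥ 2` allow an integer proof:
`4 ^ (s²) ≥ 3 ^ (s²) * 4 ^ s * 2 ^ ((s² - 10 s) * 2 / 5)`.) -/
theorem numeric : ∃ c : ℝ, 0 < c ∧ ∀ k : ℕ, 2 ≤ k → ∃ m : ℕ, c * k / √(Real.log k) ≤ m ∧
    (m = 1 ∨ ∃ s D : ℕ, 1 ≤ s ∧ 1 ≤ D ∧ 2 * D ≤ k - 1 ∧ 48 * s * (2 * m) ≤ D ∧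
      2 * (2 * m) * 4 ^ s * 3 ^ (s * s) < 4 ^ (s * s)) := sorry

end RootedKC
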