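import Pool.Agent.Lib.MP_09e206_co.T.Transfer
import Pool.Agent.Lib.MP_09e206_co.T.KT
import Pool.Agent.Lib.MP_09e206_co.T.Numeric

/-! # T27: final statements -/

namespace RootedKC

open Pool.Agent.Lib.MP_4332cb_co

/-- if all graphs which are not `(k - 1)`-colourable have a `K_t` minor, then every realizer of
the set of bijections has a rooted model of order `t / 2` -/
theorem conditional (k t : ℕ) (hk : 1 ≤ k)
    (H : ∀ (V : Type) [Fintype V] (G : SimpleGraph V), ¬ G.Colorable (k - 1) → KM G t)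
    {V : Type} [Fintype V] (G : SimpleGraph V) (ι : Fin k ↪ V)
    (hG : Realizes G ι {f : Fin k → Fin k | Function.Bijective f}) :
    HasRootedModel G (Set.range ι) (⊤ : SimpleGraph (Fin (t / 2))) :=
  ((transfer k t (t / 2) hk (Nat.mul_div_le t 2) H _ V G _ rfl hG.hol).hasRootedModel)

theorem unconditional : ∃ c : ℝ, 0 < c ∧ ∀ k : ℕ, 2 ≤ k → ∃ m : ℕ,
    c * k / √(Real.log k) ≤ m ∧ ∀ (V : Type) [Fintype V] (G : SimpleGraph V) (ι : Fin k ↪ V),
      Realizes G ι {f : Fin k → Fin k | Function.Bijective f} →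
      HasRootedModel G (Set.range ι) (⊤ : SimpleGraph (Fin m)) := by
  obtain ⟨c, hc, h⟩ := numeric
  refine ⟨c, hc, fun k hk => ?_⟩
  obtain ⟨m, hm, h1⟩ := h k hk
  refine ⟨m, hm, fun V _ G ι hG => ?_⟩
  rcases h1 with rfl | ⟨s, D, hs, hD, hDk, hst, hq⟩
  · exact (hG.hol.RM_one (by omega)).hasRootedModel
  · exact (transfer k (2 * m) m (by omega) le_rfl
      (fun V _ G h => KT hD hDk hs hst hq V G h) _ V G _ rfl hG.hol).hasRootedModel

end RootedKC
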