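import Pool.Agent.Lib.MP_09e206_co.T.Basic

/-! # T10, T11, T12: the glued graph -/

namespace RootedKC

open Pool.Agent.Lib.MP_4332cb_co

variable {V : Type} {k : ℕ}

/-- vertices of the glued graph: the near side, and one vertex for each colour used on `S` -/
abbrev GV (G : SimpleGraph V) (X S : Set V) (φ : V → Fin k) : Type :=
  near G X S ⊕ {c : Fin k // ∃ s ∈ S, φ s = c}

/-- adjacency of the glued graph -/
def gAdj (G : SimpleGraph V) (X S : Set V) (φ : V → Fin k) : GV G X S φ → GV G X S φ → Prop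
  | Sum.inl v, Sum.inl w => G.Adj v.1 w.1
  | Sum.inl v, Sum.inr c => ∃ s ∈ S, φ s = c.1 ∧ G.Adj v.1 s
  | Sum.inr c, Sum.inl v => ∃ s ∈ S, φ s = c.1 ∧ G.Adj v.1 s
  | Sum.inr c, Sum.inr d => c ≠ d

/-- the glued graph -/
def glue (G : SimpleGraph V) (X S : Set V) (φ : V → Fin k) : SimpleGraph (GV G X S φ) where
  Adj := gAdj G X S φ
  symm := ⟨by
    rintro (v | c) (w | d) h
    · exact G.adj_symm h
    · exact h
    · exact h
    · exact Ne.symm h⟩
  loopless := ⟨by
    rintro (v | c) h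
    · exact SimpleGraph.irrefl G h
    · exact h rfl⟩

/-- the roots of the glued graph -/
def gX (G : SimpleGraph V) (X S : Set V) (φ : V → Fin k) : Set (GV G X S φ)
  | Sum.inl v => v.1 ∈ X
  | Sum.inr c => ∃ s ∈ S, s ∈ X ∧ φ s = c.1

end RootedKC
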