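import Pool.Agent.Lib.MP_09e206_co.T.Glue

/-! # T10: the glued graph has the colouring property -/

namespace RootedKC

open Pool.Agent.Lib.MP_4332cb_co

variable {V : Type} {k : ℕ}

/-- Proof. Existence: `φ` on the near side, `c` on the vertex of the colour `c`. Let `ψ` be a proper colouring
of the glued graph. On the colours used on `S`, `c ↦ ψ (inr c)` is injective; let `π` be a permutation of
`Fin k` with `π c = ψ (inr c)` for these `c`. `Ψ v = ψ (inl v)` on the near side and `Ψ v = π (φ v)` on the far
side is a proper colouring of `G` (an edge from `v` in `near` to `w` in `far` has `w ∈ S` by `adj_far`, so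
`inl v` and `inr (φ w)` are adjacent), so for every colour `c` there is `x ∈ X` with `Ψ x = c`; `x ∈ near ∪ S`
(`subset_near_union`); if `x ∈ near` take `inl x`, if `x ∈ S` (hence in `far`) take `inr (φ x)`. -/
theorem glue_hol {G : SimpleGraph V} {X : Set V} (S : Set V) {φ : V → Fin k} (hφ : Proper G φ)
    (h : Hol k G X) : Hol k (glue G X S φ) (gX G X S φ) := sorry

open Classical in
/-- Proof: `GV` injects into `near ∪ S` (choose `s ∈ S` for each colour), which misses `v`. -/
theorem glue_card [Fintype V] {G : SimpleGraph V} {X S : Set V} {φ : V → Fin k} {v : V}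
    (hv : v ∈ far G X S) (hvS : v ∉ S) : Fintype.card (GV G X S φ) < Fintype.card V := sorry

end RootedKC
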