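import Pool.Agent.Lib.MP_09e206_co.T.Glue

/-! # T11: the glued graph is a rooted minor -/

namespace RootedKC

open Pool.Agent.Lib.MP_4332cb_co

variable {V : Type} {k : ℕ}

/-- Proof. From the model `f : Fin S.card → Set (far ..)`: choose in each `f l` a vertex of `S`; this is an
injection `Fin S.card → S`, hence a bijection; for `s ∈ S` let `g s = Subtype.val '' f l` with `l` the index of
`s`. -/
theorem rooted_fun {G : SimpleGraph V} {X : Set V} {S : Finset V}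
    (h : RM (G.induce (far G X (S : Set V))) (Subtype.val ⁻¹' (S : Set V)) S.card) :
    ∃ g : V → Set V, (∀ s ∈ S, Cn G (g s) ∧ s ∈ g s ∧ g s ⊆ far G X (S : Set V)) ∧
      (∀ s ∈ S, ∀ s' ∈ S, s ≠ s' → Disjoint (g s) (g s')) ∧
      ∀ s ∈ S, ∀ s' ∈ S, s ≠ s' → ∃ x ∈ g s, ∃ y ∈ g s', G.Adj x y := sorry

/-- Proof. Branch sets: `{v}` for `inl v`, and `⋃ s ∈ S, φ s = c, g s` for `inr c` (connected: the `g s` are
connected and pairwise adjacent). -/
theorem glue_RMn {G : SimpleGraph V} {X S : Set V} (φ : V → Fin k) (g : V → Set V)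
    (h1 : ∀ s ∈ S, Cn G (g s) ∧ s ∈ g s ∧ g s ⊆ far G X S)
    (h2 : ∀ s ∈ S, ∀ s' ∈ S, s ≠ s' → Disjoint (g s) (g s'))
    (h3 : ∀ s ∈ S, ∀ s' ∈ S, s ≠ s' → ∃ x ∈ g s, ∃ y ∈ g s', G.Adj x y) :
    RMn (glue G X S φ) (gX G X S φ) G X := sorry

end RootedKC
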