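import Pool.Agent.Lib.MP_09e206_co.T.Basic

/-! # T12: elementary consequences of the colouring property -/

namespace RootedKC

open Pool.Agent.Lib.MP_4332cb_co

/-- Proof: a colouring with `k - 1` colours, composed with `Fin (k - 1) → Fin k`, misses the last colour. -/
theorem Hol.not_colorable {V : Type} {k : ℕ} (hk : 1 ≤ k) {G : SimpleGraph V} {X : Set V}
    (h : Hol k G X) : ¬ G.Colorable (k - 1) := sorry

theorem Hol.RM_one {V : Type} {k : ℕ} (hk : 1 ≤ k) {G : SimpleGraph V} {X : Set V}
    (h : Hol k G X) : RM G X 1 := sorry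

/-- the set of bijections -/
theorem Realizes.hol {V : Type} {k : ℕ} {G : SimpleGraph V} {ι : Fin k ↪ V}
    (h : Realizes G ι {f : Fin k → Fin k | Function.Bijective f}) : Hol k G (Set.range ι) := sorry

theorem isColSet_bij (k : ℕ) : IsColSet k {f : Fin k → Fin k | Function.Bijective f} := sorry

/-- a `K_t` model gives a partial model with inner sets those disjoint from `X` -/
theorem PMod.of_model {V : Type} {G : SimpleGraph V} {X : Set V} {t : ℕ} {D : Fin t → Set V}
    (h1 : ∀ i, Cn G (D i)) (h2 : ∀ i j, i ≠ j → Disjoint (D i) (D j))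
    (h3 : ∀ i j, i ≠ j → ∃ x ∈ D i, ∃ y ∈ D j, G.Adj x y) : PMod G X t D (avoid X D) := sorry

/-- Proof: if at least `m` of the `D i` meet `X`, they form a rooted model; otherwise at least `t - m + 1` of them
are disjoint from `X`. -/
theorem model_cases {V : Type} {G : SimpleGraph V} {X : Set V} {t m : ℕ} {D : Fin t → Set V}
    (h1 : ∀ i, Cn G (D i)) (h2 : ∀ i j, i ≠ j → Disjoint (D i) (D j))
    (h3 : ∀ i j, i ≠ j → ∃ x ∈ D i, ∃ y ∈ D j, G.Adj x y) :
    RM G X m ∨ t ≤ (avoid X D).card + m := sorry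

end RootedKC
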