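import Pool.Agent.Lib.MP_09e206_co.T.NearLink

/-! # T05: a rooted model on the far side is extended to `X` -/

namespace RootedKC

open Pool.Agent.Lib.MP_4332cb_co

/-- Proof. `near_link` gives `C : Fin z → Set V`; `hrec` gives `f : Fin z → Set (far ..)`, put
`g l = Subtype.val '' f l` (connected by `Cn_of_induce`, disjoint, contained in `far`, adjacent, meets `S`).
Choose `a j ∈ C j ∩ S` and `b l ∈ g l ∩ S`; both are injective `Fin z → S`, `S.card = z`, so both are
bijective: there is a permutation `σ` with `a (σ l) = b l`. The branch sets are `g l ∪ C (σ l)`. Disjointness: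
`C (σ l) ∩ g l'` is contained in `(near ∪ S) ∩ far ⊆ S`, a vertex of `S` in `C (σ l)` is `a (σ l) = b l ∈ g l`
(every vertex of `S` is some `a j'`, the `C` are disjoint), so it is not in `g l'`. -/
theorem step_a {V : Type} [Fintype V] {G : SimpleGraph V} {X : Set V} {z t : ℕ}
    {D : Fin t → Set V} {I : Finset (Fin t)} (hz : NoSep G X z D I)
    (S : Finset V) (hS : S.card = z) {i : Fin t} (hi : i ∈ I) (hd : Disjoint (S : Set V) (D i))
    (hs : Sp G X (D i) (S : Set V))
    (hrec : RM (G.induce (far G X (S : Set V))) (Subtype.val ⁻¹' (S : Set V)) z) :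
    RM G X z := sorry

end RootedKC
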