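import Pool.Agent.Lib.MP_09e206_co.T.Basic

/-! # T08: all inner sets are single vertices -/

namespace RootedKC

open Pool.Agent.Lib.MP_4332cb_co

/-- Proof. `menger G X K z` with `K = ⋃ i ∈ I, D i`: if `Sp G X K S` and `S.card < z ≤ I.card`, some `D i`,
`i ∈ I`, is disjoint from `S` (the `D i` are nonempty and disjoint), and `Sp G X (D i) S`, contradiction to
`hz`. The connectors `C j` are the branch sets: `p ∈ C j ∩ D a`, `q ∈ C l ∩ D b` with `j ≠ l`, `a, b ∈ I`; `p ≠ q`
so `a ≠ b` (subsingletons), `D a = {p}`, `D b = {q}`, so `p`, `q` are adjacent by `h.adj`. -/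
theorem step_c {V : Type} [Fintype V] {G : SimpleGraph V} {X : Set V} {z t : ℕ}
    {D : Fin t → Set V} {I : Finset (Fin t)} (h : PMod G X t D I) (hz : NoSep G X z D I)
    (hI : z ≤ I.card) (hs : ∀ i ∈ I, (D i).Subsingleton) : RM G X z := sorry

end RootedKC
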