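import Pool.Agent.Lib.MP_09e206_co.T.RestrictSep
import Pool.Agent.Lib.MP_09e206_co.T.StepA
import Pool.Agent.Lib.MP_09e206_co.T.ContrSep
import Pool.Agent.Lib.MP_09e206_co.T.StepC

/-! # T09: the linking lemma -/

namespace RootedKC

open Pool.Agent.Lib.MP_4332cb_co

/-- Proof by strong induction on the number of vertices. (a) If there are `S` with `S.card = z`, `i ∈ I`,
`S` disjoint from `D i`, `Sp G X (D i) S` and `¬ X ⊆ S`: a vertex of `X \ S` is in `near`, so `far` has fewer
vertices; apply the induction hypothesis to `G.induce (far G X S)` (`PMod.restrict`, `NoSep.restrict`, `card_avoid`: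
`z ≤ t - z ≤ (avoid S D).card`) and then `step_a`. (b) Otherwise, if some `D i`, `i ∈ I`, is not a subsingleton,
it contains an edge (it is connected: the first edge of a path between two different vertices), contract it:
`PMod.contr`, `NoSep.contr`, `RMn_contr`, `RM.lift`. (c) Otherwise `step_c`. -/
theorem linking (n : ℕ) : ∀ (V : Type) [Fintype V] (G : SimpleGraph V) (X : Set V) (z t : ℕ)
    (D : Fin t → Set V) (I : Finset (Fin t)), Fintype.card V = n → 2 * z ≤ t → z ≤ I.card →
    PMod G X t D I → NoSep G X z D I → RM G X z := sorry

end RootedKC
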