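import Pool.Agent.Lib.MP_09e206_co.T.Basic

/-! # T04: disjoint connectors from `X` to the separator on the near side -/

namespace RootedKC

open Pool.Agent.Lib.MP_4332cb_co

/-- Proof. Let `A = near G X S ∪ S` and `GA` the graph on `V` with `GA.Adj u v ↔ G.Adj u v ∧ u ∈ A ∧ v ∈ A`. Apply
`menger GA X S z`: let `Y : Finset V` with `Sp GA X S Y`; if `Y.card < z`, then `T = Y.filter (· ∈ A)` has fewer
than `z` elements, is disjoint from `D i` (`D i ⊆ far` by `subset_far_of_Sp`, and disjoint from `S`), and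
`Sp G X (D i) T`: a path avoiding `T` from `x ∈ X` to `D i` meets `S` (`hs`); up to its first vertex in
`S` it lies in `A`, so it avoids `Y` and is a path in `GA` from `X` to `S` avoiding `Y`, contradiction. This
contradicts `hz`. A connector `C` (connected in `GA`, meets `S ⊆ A`) lies in `A`. -/
theorem near_link {V : Type} [Fintype V] {G : SimpleGraph V} {X : Set V} {z t : ℕ}
    {D : Fin t → Set V} {I : Finset (Fin t)} (hz : NoSep G X z D I)
    (S : Finset V) {i : Fin t} (hi : i ∈ I) (hd : Disjoint (S : Set V) (D i))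
    (hs : Sp G X (D i) (S : Set V)) :
    ∃ C : Fin z → Set V, (∀ j, Cn G (C j)) ∧ (∀ j l, j ≠ l → Disjoint (C j) (C l)) ∧
      (∀ j, (C j ∩ X).Nonempty) ∧ (∀ j, (C j ∩ (S : Set V)).Nonempty) ∧
      ∀ j, C j ⊆ near G X (S : Set V) ∪ (S : Set V) := sorry

end RootedKC
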