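import Pool.Agent.Lib.MP_09e206_co.T.Basic

/-! # T02: restriction of a partial model to the far side of a separator -/

namespace RootedKC

open Pool.Agent.Lib.MP_4332cb_co

/-- Proof. `D i ⊆ far` by `subset_far_of_Sp`, and `D i` avoids `S`. Let `j ≠ i` and let `a ∈ D i`, `b ∈ D j` be
adjacent; `b ∈ far` (otherwise `b ∈ near` and `a ∈ near` by `near_closed`).
(1) `D j` disjoint from `S`: then `j ∈ I` (otherwise `outer` joins `b` to a vertex `y ∈ X` inside `D j`, which
avoids `S`, so `b ∈ near`), and `D j ⊆ far` (`D j` is connected, avoids `S` and contains `b ∈ far`: a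
vertex of `D j` in `near` would give `b ∈ near`).
(2) `D j` meets `S` and `x ∈ D j ∩ far`: `x` is joined to a vertex of `S` inside `D j ∩ far`: if `x ∈ S` it is
trivial. Otherwise `x` is joined inside `D j` to a vertex of `S`, or to a vertex of `X` (`inner`/`outer`; in the
inner case `D j` is connected and meets `S`); a path in `D j` from `x` to `X` which avoids `S` would give
`x ∈ near`; so in both cases there is a path from `x` inside `D j` which meets `S`; up to its first vertex in
`S` it stays in `far` (`near_closed`). Use `first_hit` or an induction on `RI`. -/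
theorem PMod.restrict {V : Type} {G : SimpleGraph V} {X : Set V} {t : ℕ} {D : Fin t → Set V}
    {I : Finset (Fin t)} (h : PMod G X t D I) {S : Set V} {i : Fin t} (hi : i ∈ I)
    (hd : Disjoint S (D i)) (hs : Sp G X (D i) S) :
    PMod (G.induce (far G X S)) (Subtype.val ⁻¹' S) t (fun j => onFar G X S (D j)) (avoid S D) ∧
      i ∈ avoid S D ∧ ∀ j ∈ avoid S D, j ∈ I ∧ D j ⊆ far G X S := sorry

/-- Proof. The sets meeting `S` are disjoint, so there are at most `S.card` of them (choose a
vertex of `S` in each of them: an injection). -/
theorem card_avoid {V : Type} {t : ℕ} {D : Fin t → Set V}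
    (hdisj : ∀ i j, i ≠ j → Disjoint (D i) (D j)) (S : Finset V) :
    t ≤ (avoid (S : Set V) D).card + S.card := sorry

end RootedKC
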