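import Pool.Agent.Lib.MP_09e206_co.T.Restrict

/-! # T03: a small separator on the far side is a small separator -/

namespace RootedKC

open Pool.Agent.Lib.MP_4332cb_co

/-- Proof. Let `S' : Finset (far G X S)` have fewer than `z` elements, `j ∈ avoid S D` (so `j ∈ I` and
`D j ⊆ far` by `PMod.restrict`, and `D j` avoids `S`), `S'` disjoint from `onFar G X S (D j)` and
separating `Subtype.val ⁻¹' S` from it. Let `T` be the image of `S'` in `V` (same cardinality, disjoint
from `D j`). Claim `Sp G X (D j) T`, which contradicts `NoSep`. Let `x ∈ X`, `d ∈ D j`, `x, d ∉ T` and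
`RI G Tᶜ x d`. Walk backwards from `d ∈ far \ S`: as `x ∉ far \ S` (`subset_near_union`), the walk meets `S`;
up to the first vertex `s` of `S` it stays in `far` (a neighbour of a vertex of `far \ S` is not in `near`,
`near_closed`), so `RI G (Tᶜ ∩ far) d s`, which gives a path in `G.induce far` avoiding `S'`
(`RI_induce`): contradiction. -/
theorem NoSep.restrict {V : Type} {G : SimpleGraph V} {X : Set V} {z t : ℕ} {D : Fin t → Set V}
    {I : Finset (Fin t)} (h : PMod G X t D I) (hz : NoSep G X z D I) {S : Set V} {i : Fin t}
    (hi : i ∈ I) (hd : Disjoint S (D i)) (hs : Sp G X (D i) S) :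
    NoSep (G.induce (far G X S)) (Subtype.val ⁻¹' S) z (fun j => onFar G X S (D j))
      (avoid S D) := sorry

end RootedKC
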