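import Pool.Agent.Lib.MP_09e206_co.T.Linking
import Pool.Agent.Lib.MP_09e206_co.T.GlueHol
import Pool.Agent.Lib.MP_09e206_co.T.GlueMinor
import Pool.Agent.Lib.MP_09e206_co.T.Holr

/-! # T13: the transfer theorem -/

namespace RootedKC

open Pool.Agent.Lib.MP_4332cb_co

/-- Proof by strong induction on the number of vertices. `H` gives a `K_t` model `D`. If there are `S`, `i` with
`S.card < m`, `i ∈ avoid X D`, `S` disjoint from `D i` and `Sp G X (D i) S`, take one with `S.card = s` minimal
(`Nat.find`); then `NoSep G X s D (avoid X D)`. `PMod.restrict`, `NoSep.restrict`, `card_avoid`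
(`t ≤ (avoid S D).card + s`, `2 s ≤ t`) and `linking` on `G.induce (far G X S)` give a model rooted at `S`;
`rooted_fun` and `glue_RMn` (with a proper colouring `φ`), `glue_hol`, `glue_card` (a vertex of `D i`) and the
induction hypothesis for the glued graph give `RM (glue ..) (gX ..) m`; `RM.lift`. Otherwise
`NoSep G X m D (avoid X D)`; `model_cases` gives the model or `m ≤ (avoid X D).card`; `linking`. -/
theorem transfer (k t m : ℕ) (hk : 1 ≤ k) (hm : 2 * m ≤ t)
    (H : ∀ (V : Type) [Fintype V] (G : SimpleGraph V), ¬ G.Colorable (k - 1) → KM G t) (n : ℕ) :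
    ∀ (V : Type) [Fintype V] (G : SimpleGraph V) (X : Set V), Fintype.card V = n →
      Hol k G X → RM G X m := sorry

end RootedKC
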